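import Pool.Agent.Y796.ND.A

set_option autoImplicit false

/-!
# The derived subgroup of a diagram group need not be virtually a diagram group

The example is the diagram group of
`⟨x, y, p₀, p₁, p₂, p₃ | x = x p₀, y = p₀ y, pᵢ = pⱼ (i < j)⟩` with base word `xy`, which is the
restricted wreath product `F₃ ≀ ℤ`. `Pres A` (semigroup presentations) and `DiagramGroup P w` (the
fundamental group of the Squier complex of `P` at `w`) are defined in `Pool/Agent/H540R3`,
`IsDiagramGroup G` (`G` is isomorphic to `DiagramGroup P w` for some `P` and some nonempty word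
`w`) in `Pool/Agent/Y796/ND/A.lean`.
-/

namespace Pool.Agent.Results.MP_8a4945_al.NeverVirtuallyDiagram

open H540DG Pool.Agent.Y796.ND

/-- **Main result.** There is a diagram group `G`, given by a finite semigroup presentation, such
that no subgroup of finite index of the derived subgroup `[G, G]` (for instance `[G, G]` itself) is
a diagram group. More generally, no subgroup `K` of `[G, G]` which contains, for some `M ≥ 1`, the
`M`-th powers of all the elements of `[G, G]` is a diagram group. -/
theorem result : ∃ (A : Type) (_ : Finite A) (P : Pres A) (_ : P.rels.Finite) (w : List A),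
    w ≠ [] ∧
    (∀ K : Subgroup (commutator (DiagramGroup P w)), K.index ≠ 0 → ¬ IsDiagramGroup K) ∧
    ∀ (K : Subgroup (commutator (DiagramGroup P w))) (M : ℕ), 0 < M →
      (∀ d : commutator (DiagramGroup P w), d ^ M ∈ K) → ¬ IsDiagramGroup K := by
  refine ⟨Lt, finite_Lt, P8, finite_P8, Wd [], by simp [Wd], ?_, ?_⟩
  · intro K hK
    refine not_diagram K (Nat.factorial_pos K.index) (fun d => ?_)
    exact Subgroup.pow_mem_of_index_ne_zero_of_dvd hK d
      (fun m hm hm' => Nat.dvd_factorial hm hm')
  · intro K M hM hK
    exact not_diagram K hM hK

end Pool.Agent.Results.MP_8a4945_al.NeverVirtuallyDiagram
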